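import Mathlib
import Pool.Agent.Work.MP_c4bd3e_lc.Full
import Pool.Agent.Work.MP_c4bd3e_lc.Nonmeas
import Pool.Agent.Work.MP_c4bd3e_lc.N.NoExt
import Pool.Agent.Work.MP_c4bd3e_lc.N.CtblRank

/-!
Subfields of the reals over which the reals have countable dimension: saturated non-measurable, or countably many
sets are not measured by any extension of Lebesgue measure.
-/

open Cardinal MeasureTheory

namespace Pool.Agent.Results.MP_c4bd3e_lc.CountableCodegree

/-- Let `F` be a proper subfield of `ℝ` such that `ℝ` has countable dimension over `F`, or that is maximal among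
the subfields not containing some real `y`. Then `F` and its complement meet every Borel set of positive
Lebesgue measure, or there are sets `A 0, A 1, ...` of reals such that no countably additive extension of Lebesgue
measure measures all of them. -/
theorem result (F : Subfield ℝ) (hF : F ≠ ⊤)
    (h : Module.rank F ℝ ≤ ℵ₀ ∨ ∃ y : ℝ, Maximal (fun K : Subfield ℝ => y ∉ K) F) :
    (∀ B : Set ℝ, MeasurableSet B → volume B ≠ 0 →
      (B ∩ (F : Set ℝ)).Nonempty ∧ (B \ (F : Set ℝ)).Nonempty) ∨
    ∃ A : ℕ → Set ℝ, ¬ ∃ (m : MeasurableSpace ℝ) (μ : @Measure ℝ m), borel ℝ ≤ m ∧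
      (∀ n, MeasurableSet[m] (A n)) ∧ ∀ B, MeasurableSet[borel ℝ] B → μ B = volume B := by
  have hr : Module.rank F ℝ ≤ ℵ₀ := by
    rcases h with h | ⟨y, hy⟩
    · exact h
    · exact C4N.rank_le_of_maximal hy
  by_cases h0 : volume (F : Set ℝ) = 0
  · exact Or.inr (C4N.no_ext F hF hr h0)
  · refine Or.inl fun E hE hE0 => ⟨MPc4bd3e.inter_nonempty h0 hE hE0, ?_⟩
    by_contra h
    rw [Set.not_nonempty_iff_eq_empty, Set.sdiff_eq_empty] at h
    exact hF (MPc4bd3e.eq_top_of_subset hE h hE0)

end Pool.Agent.Results.MP_c4bd3e_lc.CountableCodegree
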