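import Mathlib
import Pool.Agent.Work.MP_c4bd3e_lc.Start
import Pool.Agent.Work.MP_c4bd3e_lc.Full
import Pool.Agent.Work.MP_c4bd3e_lc.N.NoExt
import Pool.Agent.Work.MP_c4bd3e_lc.N.CtblRank

/-!
Measurable maximal subfields of the reals avoiding a real number: both halves of the independence of the
question from ZFC.
-/

open Cardinal MeasureTheory

namespace Pool.Agent.Results.MP_c4bd3e_lc.Independence

/-- The positive half: null maximal subfields avoiding `y`, unless `ℝ` is a union of fewer than continuum many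
meagre sets. -/
theorem positive (y : ℝ) (hy : Irrational y)
    (hX : ∀ (ι : Type) (B : ι → Set ℝ), #ι < #ℝ → (∀ i, IsMeagre (B i)) → (⋃ i, B i) ≠ Set.univ) :
    ∃ F : Subfield ℝ, Maximal (fun K : Subfield ℝ => y ∉ K) F ∧ volume (F : Set ℝ) = 0 := by
  obtain ⟨S0, hS0, hyS0, hyc, hS0y⟩ := MPc4bd3e.exists_start hy
  obtain ⟨hm, hnull⟩ := MPc4bd3e.isMeagre_null_set y
  have hκ : ℵ₀ < max #(Set.univ : Set ℝ) ℵ₁ := lt_max_of_lt_right aleph0_lt_aleph_one
  have hX' : #(Set.univ : Set ℝ) ≤ ℵ₁ ∨ ∀ (ι : Type) (B : ι → Set ℝ), #ι < #(Set.univ : Set ℝ) →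
      (∀ i, IsMeagre (B i)) → (⋃ i, B i) ≠ Set.univ := by
    right
    rwa [mk_univ]
  obtain ⟨E, F, hXE, -, -, hF, hFG⟩ := MPc4bd3e.exists_maximal_subset hκ
    (MPc4bd3e.notCovered_max hX') hm hS0 hyS0 hyc
    (fun x hx => Or.inr (MPc4bd3e.cl_subset_of_subset_cl hS0y hx)) Set.univ (le_max_left _ _)
  refine ⟨F, ⟨hF.1.2, fun K hK hFK => hF.2 ⟨?_, hK⟩ hFK⟩, measure_mono_null hFG hnull⟩
  intro x _
  exact hXE (Set.mem_insert_of_mem _ trivial)

/-- (1) If `ℝ` is not a union of fewer than continuum many meagre sets then for every irrational `y` some maximal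
subfield of `ℝ` avoiding `y` has measure zero. (2) If `F` is a maximal subfield of `ℝ` avoiding a real `y` and `F` is
measurable, then there are sets `A 0, A 1, ...` of reals such that no countably additive extension of Lebesgue
measure measures all of them. -/
theorem result :
    ((∀ (ι : Type) (B : ι → Set ℝ), #ι < #ℝ → (∀ i, IsMeagre (B i)) → (⋃ i, B i) ≠ Set.univ) →
      ∀ y : ℝ, Irrational y →
        ∃ F : Subfield ℝ, Maximal (fun K : Subfield ℝ => y ∉ K) F ∧ volume (F : Set ℝ) = 0) ∧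
    ((∀ A : ℕ → Set ℝ, ∃ (m : MeasurableSpace ℝ) (μ : @Measure ℝ m), borel ℝ ≤ m ∧
        (∀ n, MeasurableSet[m] (A n)) ∧ ∀ B, MeasurableSet[borel ℝ] B → μ B = volume B) →
      ∀ (y : ℝ) (F : Subfield ℝ), Maximal (fun K : Subfield ℝ => y ∉ K) F →
        ¬ NullMeasurableSet (F : Set ℝ) volume) := by
  refine ⟨fun h y hy => positive y hy h, fun h y F hF hm => ?_⟩
  have hne : F ≠ ⊤ := by
    rintro rfl
    exact hF.1 trivial
  have h0 : volume (F : Set ℝ) = 0 := by
    by_contra h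
    exact hne (MPc4bd3e.eq_top_of_measure_pos hm h)
  obtain ⟨A, hA⟩ := C4N.no_ext F hne (C4N.rank_le_of_maximal hF) h0
  exact hA (h A)

end Pool.Agent.Results.MP_c4bd3e_lc.Independence
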