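import Mathlib
import Pool.Agent.Work.MP_c4bd3e_lc.Full

/-!
Maximal subfields of the reals avoiding a real: never analytic, and some simple extension in `ℝ`
is saturated non-measurable.
-/

open MeasureTheory

namespace Pool.Agent.Results.MP_c4bd3e_lc.NonmeasurableExtension

/-- (1) Let `F` be any maximal subfield of `ℝ` avoiding `y`. Then `F` is not an analytic set (so it
is not Borel), and there is a real `x` such that every Borel set of positive Lebesgue measure
meets both the subfield `F(x)` and its complement. (2) For every irrational `y` some maximal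
subfield avoiding `y` meets every uncountable closed set and is not Lebesgue measurable. -/
theorem result :
    (∀ (y : ℝ) (F : Subfield ℝ), Maximal (fun K : Subfield ℝ => y ∉ K) F →
      ¬ AnalyticSet (F : Set ℝ) ∧
      ∃ x : ℝ, ∀ E : Set ℝ, MeasurableSet E → volume E ≠ 0 →
        (E ∩ (Subfield.closure (insert x (F : Set ℝ)) : Set ℝ)).Nonempty ∧
        (E \ (Subfield.closure (insert x (F : Set ℝ)) : Set ℝ)).Nonempty) ∧
    ∀ y : ℝ, Irrational y → ∃ F : Subfield ℝ, Maximal (fun K : Subfield ℝ => y ∉ K) F ∧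
      (∀ C : Set ℝ, IsClosed C → ¬ C.Countable → (C ∩ (F : Set ℝ)).Nonempty) ∧
      ¬ NullMeasurableSet (F : Set ℝ) volume := by
  refine ⟨fun y F hF => ⟨MPc4bd3e.not_analyticSet hF, ?_⟩, fun y hy => ?_⟩
  · obtain ⟨x, hx⟩ := MPc4bd3e.exists_ext_pos hF
    refine ⟨x, fun E hE hE0 => ⟨MPc4bd3e.inter_nonempty hx hE hE0, ?_⟩⟩
    by_contra h
    rw [Set.not_nonempty_iff_eq_empty, Set.sdiff_eq_empty] at h
    exact MPc4bd3e.ext_ne_top hF x (MPc4bd3e.eq_top_of_subset hE h hE0)
  · obtain ⟨S0, hS0, hyS0, hyc, -⟩ := MPc4bd3e.exists_start hy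
    obtain ⟨F, hF, hB⟩ := MPc4bd3e.exists_maximal_bernstein hS0 hyS0 hyc
    refine ⟨F, hF, hB, MPc4bd3e.not_nullMeasurable_of_bernstein ?_ hB⟩
    rintro rfl
    exact hF.1 trivial

end Pool.Agent.Results.MP_c4bd3e_lc.NonmeasurableExtension
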