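import Mathlib
import Pool.Agent.Work.MP_c4bd3e_lc.Start

/-!
Null maximal subfields avoiding an irrational number.
-/

open Cardinal MeasureTheory

namespace Pool.Agent.Results.MP_c4bd3e_lc.NullUnlessCovered

/-- Let `y` be irrational and let `X` be a set of reals such that `X` has at most `ℵ₁` elements
or `ℝ` is not a union of fewer than `#X` meagre sets. For every comeagre set `G` containing the
reals algebraic over `ℚ(y)` there are a subfield `E` of `ℝ` containing `X` and `y`, relatively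
algebraically closed in `ℝ`, and a maximal subfield `F` of `E` avoiding `y` that is Lebesgue null
and contained in `G`. -/
theorem result (y : ℝ) (hy : Irrational y) (X : Set ℝ)
    (hX : #X ≤ ℵ₁ ∨ ∀ (ι : Type) (B : ι → Set ℝ), #ι < #X → (∀ i, IsMeagre (B i)) →
      (⋃ i, B i) ≠ Set.univ)
    (G : Set ℝ) (hG : G ∈ residual ℝ)
    (hyG : ∀ x : ℝ, IsAlgebraic (Subfield.closure {y}) x → x ∈ G) :
    ∃ E F : Subfield ℝ, X ⊆ E ∧ y ∈ E ∧ (∀ x : ℝ, IsAlgebraic E x → x ∈ E) ∧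
      #E ≤ max #X ℵ₀ ∧ Maximal (fun K : Subfield ℝ => K ≤ E ∧ y ∉ K) F ∧
      (F : Set ℝ) ⊆ G ∧ volume (F : Set ℝ) = 0 := by
  obtain ⟨S0, hS0, hyS0, hyc, hS0y⟩ := MPc4bd3e.exists_start hy
  obtain ⟨hm, hnull⟩ := MPc4bd3e.isMeagre_null_set y
  have hκ : ℵ₀ < max #X ℵ₁ := lt_max_of_lt_right aleph0_lt_aleph_one
  have hclG : MPc4bd3e.cl {y} ⊆ G := by
    intro x hx
    apply hyG
    obtain ⟨P, hP, hPc, hPx⟩ := MPc4bd3e.exists_poly hx
    obtain ⟨Q, hQ⟩ := MPc4bd3e.lift_poly hPc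
    refine ⟨Q, ?_, ?_⟩
    · rintro rfl
      exact hP (by rw [← hQ, Polynomial.map_zero])
    · rw [← Polynomial.eval_map_algebraMap, hQ, hPx]
  have hG' : IsMeagre (G ∩ ({x : ℝ | Liouville x} ∪ MPc4bd3e.cl {y}))ᶜ := by
    rw [Set.compl_inter]
    refine IsMeagre.union ?_ hm
    rw [IsMeagre, compl_compl]
    exact hG
  obtain ⟨E, F, hXE, hE, hEc, hF, hFG⟩ := MPc4bd3e.exists_maximal_subset hκ
    (MPc4bd3e.notCovered_max hX) hG' hS0 hyS0 hyc
    (fun x hx => ⟨hclG (MPc4bd3e.cl_subset_of_subset_cl hS0y hx),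
      Or.inr (MPc4bd3e.cl_subset_of_subset_cl hS0y hx)⟩) X (le_max_left _ _)
  refine ⟨E, F, (Set.subset_insert _ _).trans hXE, hXE (Set.mem_insert _ _), ?_, hEc, hF,
    fun x hx => (hFG hx).1, ?_⟩
  · intro x hx
    apply hE
    obtain ⟨p, hp, hpx⟩ := hx
    refine MPc4bd3e.mem_cl_of_root (P := p.map (algebraMap _ ℝ)) ?_ ?_ ?_
    · rwa [Ne, Polynomial.map_eq_zero]
    · intro n
      rw [Polynomial.coeff_map]
      exact MPc4bd3e.subset_cl _ (p.coeff n).2
    · rw [Polynomial.eval_map_algebraMap, hpx]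
  · exact measure_mono_null (fun x hx => (hFG hx).2) hnull

end Pool.Agent.Results.MP_c4bd3e_lc.NullUnlessCovered
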